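import Pool.Agent.Lib.H21Cube.Base

/-!
# Chunk F2 (S/M): nearest point projection onto a closed convex set
-/

namespace Pool.Agent.Lib.H21Simplex

/-- `P x` is the nearest point (`exists_norm_eq_iInf_of_complete_convex`,
`norm_eq_iInf_iff_real_inner_le_zero`). With `u = P x`, `w = P z`: `⟪x - u, w - u⟫ ≤ 0` and
`⟪z - w, u - w⟫ ≤ 0`, the sum gives `‖u - w‖² ≤ ⟪x - z, u - w⟫ ≤ ‖x - z‖ ‖u - w‖`. -/
theorem exists_retract {d : ℕ} {H : Set (EuclideanSpace ℝ (Fin d))} (hc : IsClosed H)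
    (hconv : Convex ℝ H) (hne : H.Nonempty) :
    ∃ P : EuclideanSpace ℝ (Fin d) → EuclideanSpace ℝ (Fin d),
      (∀ x z, dist (P x) (P z) ≤ dist x z) ∧ (∀ x, P x ∈ H) ∧ ∀ x ∈ H, P x = x := by
  have h1 : ∀ x, ∃ v ∈ H, ‖x - v‖ = ⨅ w : H, ‖x - w‖ := fun x =>
    exists_norm_eq_iInf_of_complete_convex hne hc.isComplete hconv x
  choose P hP h2 using h1
  have h3 : ∀ x, ∀ w ∈ H, inner ℝ (x - P x) (w - P x) ≤ 0 := fun x =>
    (norm_eq_iInf_iff_real_inner_le_zero hconv (hP x)).1 (h2 x)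
  have h4 : ∀ x z, ‖P x - P z‖ ^ 2 ≤ inner ℝ (x - z) (P x - P z) := by
    intro x z
    have e1 := h3 x (P z) (hP z)
    have e2 := h3 z (P x) (hP x)
    have e3 : inner ℝ (x - P x) (P z - P x) + inner ℝ (z - P z) (P x - P z)
        = ‖P x - P z‖ ^ 2 - inner ℝ (x - z) (P x - P z) := by
      rw [← real_inner_self_eq_norm_sq]
      have e4 : P z - P x = -(P x - P z) := by abel
      rw [e4, inner_neg_right]
      have e5 : P x - P z = (x - z) - ((x - P x) - (z - P z)) := by abel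
      rw [← inner_neg_left, ← inner_add_left, ← inner_sub_left]
      congr 1
      abel
    linarith
  refine ⟨P, ?_, hP, ?_⟩
  · intro x z
    rw [dist_eq_norm, dist_eq_norm]
    have e1 := h4 x z
    have e2 := real_inner_le_norm (x - z) (P x - P z)
    by_contra hlt
    push Not at hlt
    have e3 : 0 ≤ ‖x - z‖ := norm_nonneg _
    have e4 : 0 < ‖P x - P z‖ := lt_of_le_of_lt e3 hlt
    nlinarith
  · intro x hx
    have e1 := h3 x x hx
    rw [real_inner_self_eq_norm_sq] at e1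
    have e2 : ‖x - P x‖ = 0 := by
      have := sq_nonneg ‖x - P x‖
      have e3 : ‖x - P x‖ ^ 2 = 0 := le_antisymm e1 this
      exact pow_eq_zero_iff (two_ne_zero) |>.1 e3
    exact (sub_eq_zero.1 (norm_eq_zero.1 e2)).symm

end Pool.Agent.Lib.H21Simplex
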