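import Pool.Agent.Lib.H21Cube.Base

/-!
# Chunk F3 (S): the convex hull of a set without obtuse angles has no obtuse angles at its points
-/

namespace Pool.Agent.Lib.H21Simplex

private theorem f3_convex {d : ℕ} (u v : EuclideanSpace ℝ (Fin d)) :
    Convex ℝ {x : EuclideanSpace ℝ (Fin d) | 0 ≤ inner ℝ (x - u) v} := by
  intro x hx z hz s t hs ht hst
  have h1 : s • x + t • z - u = s • (x - u) + t • (z - u) := by
    rw [smul_sub, smul_sub]
    have h2 : u = s • u + t • u := by rw [← add_smul, hst, one_smul]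
    nth_rewrite 1 [h2]
    abel
  simp only [Set.mem_ofPred_eq] at hx hz ⊢
  rw [h1, inner_add_left, real_inner_smul_left, real_inner_smul_left]
  positivity

/-- For fixed `l` the set of the `x` with `0 ≤ ⟪x - a i, a l - a i⟫` is convex and contains all `a j`
(`convexHull_min`); then the same for the second argument. -/
theorem inner_nonneg_hull {d : ℕ} {ι : Type*} {a : ι → EuclideanSpace ℝ (Fin d)} {i : ι}
    (h : ∀ j l, 0 ≤ inner ℝ (a j - a i) (a l - a i)) {x z : EuclideanSpace ℝ (Fin d)}
    (hx : x ∈ convexHull ℝ (Set.range a)) (hz : z ∈ convexHull ℝ (Set.range a)) :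
    0 ≤ inner ℝ (x - a i) (z - a i) := by
  have h1 : ∀ l, ∀ x ∈ convexHull ℝ (Set.range a), 0 ≤ inner ℝ (x - a i) (a l - a i) := by
    intro l
    have h2 : convexHull ℝ (Set.range a) ⊆ {x | 0 ≤ inner ℝ (x - a i) (a l - a i)} := by
      apply convexHull_min
      · rintro _ ⟨j, rfl⟩
        exact h j l
      · exact f3_convex _ _
    exact fun x hx => h2 hx
  have h3 : convexHull ℝ (Set.range a) ⊆ {z | 0 ≤ inner ℝ (z - a i) (x - a i)} := by
    apply convexHull_min
    · rintro _ ⟨l, rfl⟩
      simp only [Set.mem_ofPred_eq]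
      rw [real_inner_comm]
      exact h1 l x hx
    · exact f3_convex _ _
  rw [real_inner_comm]
  exact h3 hz

end Pool.Agent.Lib.H21Simplex
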