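import Pool.Agent.Lib.H21Simplex.G1
import Pool.Agent.Lib.H21Simplex.F2
import Pool.Agent.Lib.H21Simplex.F3
import Pool.Agent.Lib.H21Cube.E4

/-!
# Points without obtuse angles have a full Steiner tree
-/

namespace Pool.Agent.Lib.H21Simplex

open Pool.Agent.Lib.H21Steiner Pool.Agent.Lib.H21Cube MeasureTheory

/-- If no angle `a j, a i, a l` is obtuse then the points `a i` have a full Steiner tree. -/
theorem exists_full_of_nonobtuse {d n : ℕ} (hn : 3 ≤ n) (a : Fin n → EuclideanSpace ℝ (Fin d))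
    (hinj : Function.Injective a) (hob : ∀ i j l, 0 ≤ inner ℝ (a j - a i) (a l - a i)) :
    ∃ G, G ∈ optimalGraphs a := by
  classical
  obtain ⟨i0, hi0⟩ : ∃ i0 : Fin n, i0 = ⟨0, by omega⟩ := ⟨_, rfl⟩
  obtain ⟨A, hA⟩ : ∃ A : Finset (Fin n), A = Finset.univ.erase i0 := ⟨_, rfl⟩
  have hAne : A.Nonempty := by
    refine ⟨⟨1, by omega⟩, ?_⟩
    rw [hA, Finset.mem_erase]
    refine ⟨?_, Finset.mem_univ _⟩
    rw [hi0]
    intro h
    have h' := congrArg Fin.val h
    simp at h'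
  obtain ⟨H, hH⟩ : ∃ H, H = convexHull ℝ (Set.range a) := ⟨_, rfl⟩
  have hcomp : IsCompact H := by
    rw [hH]
    exact Set.Finite.isCompact_convexHull (𝕜 := ℝ) (Set.finite_range a)
  have hconv : Convex ℝ H := by
    rw [hH]
    exact convex_convexHull ℝ _
  have hmem : ∀ i, a i ∈ H := by
    intro i
    rw [hH]
    exact subset_convexHull ℝ _ ⟨i, rfl⟩
  have hang : ∀ i, ∀ x ∈ H, ∀ z ∈ H, 0 ≤ inner ℝ (x - a i) (z - a i) := by
    intro i x hx z hz
    rw [hH] at hx hz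
    exact inner_nonneg_hull (hob i) hx hz
  obtain ⟨P, hP1, hP2, hP3⟩ := exists_retract hcomp.isClosed hconv ⟨_, hmem i0⟩
  obtain ⟨t, htH, htL, htO⟩ := exists_opt (α := Fin n) hcomp (y := a) hP1 hP2
    (fun i => hP3 _ (hmem i)) (L := A.toList) (by
      intro h
      exact hAne.ne_empty (Finset.toList_eq_nil.1 h)) (p := a i0) (hP3 _ (hmem i0))
  have hnd : t.leaves.Nodup := htL.nodup_iff.2 A.nodup_toList
  have hlv : ∀ i, i ∈ t.leaves ↔ i ≠ i0 := by
    intro i
    rw [htL.mem_iff, Finset.mem_toList, hA, Finset.mem_erase]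
    exact ⟨fun h => h.1, fun h => ⟨h, Finset.mem_univ _⟩⟩
  have hpl : ∀ i ∈ t.leaves, a i ≠ a i0 := fun i hi h => (hlv i).1 hi (hinj h)
  have hf := first_ne_of_opt hmem (hang i0) hpl htH htO
  have hpos : t.Pos a (a i0) := pos_of_opt hmem hang hinj t (a i0) (hmem i0) htH hnd htO hf
  have hmin : ∀ K' : Set (EuclideanSpace ℝ (Fin d)), IsCompact K' → IsConnected K' →
      Set.range a ⊆ K' → ENNReal.ofReal (t.len a (a i0)) ≤ μH[1] K' := by
    intro K' hK hc hsub
    by_cases htop : μH[1] K' = ⊤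
    · rw [htop]
      exact le_top
    · have hlt : μH[1] K' < ⊤ := lt_top_iff_ne_top.2 htop
      rw [ENNReal.ofReal_le_iff_le_toReal htop]
      refine le_of_forall_pos_le_add fun ε hε => ?_
      obtain ⟨τ, h1, h2, h3⟩ := exists_BT hK hc hlt A hAne a (fun i _ => hsub ⟨i, rfl⟩)
        (hsub ⟨i0, rfl⟩) hε
      obtain ⟨t', h4, h5⟩ := exists_PT_of_R h3
      refine (htO t' ?_).trans h5
      rw [← leaves_shape t', h4]
      refine List.Perm.trans ?_ htL.symm
      rw [List.perm_ext_iff_of_nodup h1 A.nodup_toList]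
      intro i
      rw [h2, Finset.mem_toList]
  obtain ⟨-, G, hG, -⟩ := bridge hn a t i0 hnd hlv hpos hmin
  exact ⟨G, hG⟩

end Pool.Agent.Lib.H21Simplex
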