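import Pool.Agent.Lib.H21Cube.T2
import Pool.Agent.Lib.H21Cube.B2

/-!
# A shortest tree of a set without obtuse angles has no edge of length zero
-/

namespace Pool.Agent.Lib.H21Simplex

open Pool.Agent.Lib.H21Steiner Pool.Agent.Lib.H21Cube

variable {α E : Type*} [NormedAddCommGroup E] [InnerProductSpace ℝ E] {H : Set E}

private theorem g1_first_mem {y : α → E} (hy : ∀ a, y a ∈ H) :
    ∀ {t : PT α E}, InH H t → first y t ∈ H
  | PT.leaf a, _ => hy a
  | PT.node _ _ _, h => h.1

private theorem g1_angle {v x z : E} (hv : 0 ≤ inner ℝ (x - v) (z - v)) (hxv : x ≠ v)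
    (hzv : z ≠ v) : -(1 / 2) * (‖x - v‖ * ‖z - v‖) < inner ℝ (x - v) (z - v) := by
  have h2 : 0 < ‖x - v‖ := norm_pos_iff.2 (sub_ne_zero.2 hxv)
  have h3 : 0 < ‖z - v‖ := norm_pos_iff.2 (sub_ne_zero.2 hzv)
  have h4 : 0 < ‖x - v‖ * ‖z - v‖ := mul_pos h2 h3
  linarith

private theorem g1_leaves {E : Type*} (q v : E) (l r : PT α E) :
    (br v l ++ br v r).flatMap PT.leaves = (PT.node q l r).leaves := by
  rw [List.flatMap_append, leaves_br, leaves_br]
  rfl

private theorem g1_len {E : Type*} [MetricSpace E] (y : α → E) (p q : E) (l r : PT α E) :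
    (PT.node q l r).len y p
      = dist p q + ((br q l ++ br q r).map (fun b => b.len y q)).sum := by
  rw [List.map_append, List.sum_append, ← len_br, ← len_br]
  simp only [PT.len]
  ring

private theorem g1_first {E : Type*} (y : α → E) (q : E) (l r : PT α E) :
    ∀ b ∈ br q l ++ br q r, first y b ≠ q ∨ ∃ a, b = PT.leaf a ∧ y a = q := by
  intro b hb
  rcases List.mem_append.1 hb with h | h
  · rcases first_br y q l b h with h1 | ⟨a, -, h2, h3⟩
    · exact Or.inl h1
    · exact Or.inr ⟨a, h2, h3⟩
  · rcases first_br y q r b h with h1 | ⟨a, -, h2, h3⟩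
    · exact Or.inl h1
    · exact Or.inr ⟨a, h2, h3⟩

private theorem g1_mem {y : α → E} (hy : ∀ a, y a ∈ H) {q : E} {l r : PT α E}
    (hl : InH H l) (hr : InH H r) : ∀ b ∈ br q l ++ br q r, first y b ∈ H := by
  intro b hb
  rcases List.mem_append.1 hb with h | h
  · exact g1_first_mem hy (InH_br q hl b h)
  · exact g1_first_mem hy (InH_br q hr b h)

private theorem g1_two_le {E : Type*} (q : E) (l r : PT α E) :
    ∃ b₁ b₂ rest, (br q l ++ br q r).Perm (b₁ :: b₂ :: rest) := by
  obtain ⟨b₁, l₁, e₁⟩ := List.exists_cons_of_ne_nil (br_ne_nil q l)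
  obtain ⟨b₂, l₂, e₂⟩ := List.exists_cons_of_ne_nil (br_ne_nil q r)
  refine ⟨b₁, b₂, l₁ ++ l₂, ?_⟩
  rw [e₁, e₂, List.cons_append]
  exact List.Perm.cons b₁ List.perm_middle

/-- No edge at the root terminal has length zero. -/
theorem first_ne_of_opt {y : α → E} {t : PT α E} {p : E} (hy : ∀ a, y a ∈ H)
    (hp : ∀ x ∈ H, ∀ z ∈ H, 0 ≤ inner ℝ (x - p) (z - p))
    (hpl : ∀ a ∈ t.leaves, y a ≠ p) (hH : InH H t) (ho : Opt y t p) : first y t ≠ p := by
  intro h
  cases t with
  | leaf a => exact hpl a (by simp [PT.leaves]) h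
  | node q l r =>
    have h' : q = p := h
    subst h'
    obtain ⟨-, hl, hr⟩ := hH
    obtain ⟨b₁, b₂, rest, hbs⟩ := g1_two_le q l r
    have hne : ∀ b ∈ br q l ++ br q r, first y b ≠ q := by
      intro b hb
      rcases List.mem_append.1 hb with h | h
      · rcases first_br y q l b h with h1 | ⟨a, h2, -, h3⟩
        · exact h1
        · exact absurd h3 (hpl a (by simp [PT.leaves, h2]))
      · rcases first_br y q r b h with h1 | ⟨a, h2, -, h3⟩
        · exact h1
        · exact absurd h3 (hpl a (by simp [PT.leaves, h2]))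
    have m1 : b₁ ∈ br q l ++ br q r := hbs.mem_iff.2 (by simp)
    have m2 : b₂ ∈ br q l ++ br q r := hbs.mem_iff.2 (by simp)
    obtain ⟨s, hs1, hs2⟩ := improve_two y (p := q) hbs (hne _ m1) (hne _ m2)
      (g1_angle (hp _ (g1_mem hy hl hr _ m1) _ (g1_mem hy hl hr _ m2)) (hne _ m1) (hne _ m2))
    rw [g1_leaves q] at hs1
    rw [← g1_len] at hs2
    exact absurd hs2 (not_lt.2 (ho s hs1))

theorem pos_of_opt {y : α → E} (hy : ∀ a, y a ∈ H)
    (hang : ∀ a, ∀ x ∈ H, ∀ z ∈ H, 0 ≤ inner ℝ (x - y a) (z - y a))
    (hinj : Function.Injective y) : ∀ (t : PT α E)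
    (p : E), p ∈ H → InH H t → t.leaves.Nodup → Opt y t p →
    first y t ≠ p → t.Pos y p := by
  intro t
  induction t with
  | leaf a =>
    intro p _ _ _ _ h
    exact fun h' => h h'.symm
  | node q l r ihl ihr =>
    intro p hp hH hnd ho hq
    have hqp : q ≠ p := hq
    obtain ⟨hqH, hl, hr⟩ := hH
    have hndl : l.leaves.Nodup := (List.nodup_append.1 hnd).1
    have hndr : r.leaves.Nodup := (List.nodup_append.1 hnd).2.1
    have hol : Opt y l q := by
      intro l' hl'
      have h1 := ho (PT.node q l' r) (List.Perm.append_right _ hl')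
      simp only [PT.len] at h1
      linarith
    have hor : Opt y r q := by
      intro r' hr'
      have h1 := ho (PT.node q l r') (List.Perm.append_left _ hr')
      simp only [PT.len] at h1
      linarith
    have hno : ∀ s : PT α E,
        s.leaves.Perm ((br q l ++ br q r).flatMap PT.leaves) →
        ¬ s.len y p < dist p q + ((br q l ++ br q r).map (fun b => b.len y q)).sum := by
      intro s h1 h2
      rw [g1_leaves q] at h1
      rw [← g1_len] at h2
      exact absurd h2 (not_lt.2 (ho s h1))
    have hmem := g1_mem (q := q) hy hl hr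
    have hfirst := g1_first y q l r
    have hleaves := g1_leaves q q l r
    obtain ⟨c₁, c₂, rest', hc⟩ := g1_two_le q l r
    -- two branches and the root edge
    have hroot : ∀ b rest, (br q l ++ br q r).Perm (b :: rest) → first y b ≠ q →
        ¬ -(1 / 2) * (‖p - q‖ * ‖first y b - q‖) < inner ℝ (p - q) (first y b - q) := by
      intro b rest hbs h1 h2
      have hrest : rest ≠ [] := by
        rintro rfl
        have h3 := hbs.length_eq
        have h4 := hc.length_eq
        rw [h4] at h3
        simp at h3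
      obtain ⟨s, hs1, hs2⟩ := improve_root y hbs hrest h1 hqp.symm h2
      exact hno s hs1 hs2
    have htwo : ∀ b₁ b₂ rest, (br q l ++ br q r).Perm (b₁ :: b₂ :: rest) → first y b₁ ≠ q →
        first y b₂ ≠ q →
        ¬ -(1 / 2) * (‖first y b₁ - q‖ * ‖first y b₂ - q‖)
          < inner ℝ (first y b₁ - q) (first y b₂ - q) := by
      intro b₁ b₂ rest hbs h1 h2 h3
      obtain ⟨s, hs1, hs2⟩ := improve_two y (p := p) hbs h1 h2 h3
      exact hno s hs1 hs2
    -- no branch is a leaf at `q`
    have hZ : ∀ a, PT.leaf a ∈ br q l ++ br q r → y a ≠ q := by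
      intro a ha haq
      obtain ⟨L₁, L₂, e⟩ := List.append_of_mem ha
      have hp1 : (br q l ++ br q r).Perm (PT.leaf a :: (L₁ ++ L₂)) := by
        rw [e]
        exact List.perm_middle
      cases hL : L₁ ++ L₂ with
      | nil =>
        rw [hL] at hp1
        have h3 := hp1.length_eq
        have h4 := hc.length_eq
        rw [h4] at h3
        simp at h3
      | cons b rest =>
        rw [hL] at hp1
        have hp2 : (br q l ++ br q r).Perm (b :: PT.leaf a :: rest) :=
          hp1.trans (List.Perm.swap _ _ _)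
        have hb : b ∈ br q l ++ br q r := hp2.mem_iff.2 (by simp)
        have hbq : first y b ≠ q := by
          rcases hfirst b hb with h | ⟨a', h1, h2⟩
          · exact h
          · exfalso
            have h3 : a' = a := hinj (h2.trans haq.symm)
            subst h3
            have h4 := List.Perm.flatMap_right PT.leaves hp1
            rw [hleaves] at h4
            have h5 := h4.nodup_iff.1 hnd
            rw [h1] at h5
            simp [PT.leaves] at h5
        have h6 := hang a p hp _ (hmem b hb)
        rw [haq] at h6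
        exact hroot b _ hp2 hbq (g1_angle h6 hqp.symm hbq)
    have hall : ∀ b ∈ br q l ++ br q r, first y b ≠ q := by
      intro b hb
      rcases hfirst b hb with h | ⟨a, h1, h2⟩
      · exact h
      · subst h1
        exact absurd h2 (hZ a hb)
    -- at most two branches
    have hlen : ¬ 3 ≤ (br q l ++ br q r).length := by
      intro h3
      obtain ⟨b₁, b₂, b₃, rest, e⟩ : ∃ b₁ b₂ b₃ rest,
          br q l ++ br q r = b₁ :: b₂ :: b₃ :: rest := by
        match hb : br q l ++ br q r, h3 with
        | b₁ :: b₂ :: b₃ :: rest, _ => exact ⟨b₁, b₂, b₃, rest, rfl⟩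
        | [], h => simp at h
        | [_], h => simp at h
        | [_, _], h => simp at h
      have p1 : (br q l ++ br q r).Perm (b₁ :: b₂ :: b₃ :: rest) := by rw [e]
      have p2 : (br q l ++ br q r).Perm (b₂ :: b₃ :: b₁ :: rest) := by
        rw [e]
        exact (List.Perm.swap _ _ _).trans (List.Perm.cons _ (List.Perm.swap _ _ _))
      have p3 : (br q l ++ br q r).Perm (b₁ :: b₃ :: b₂ :: rest) := by
        rw [e]
        exact List.Perm.cons _ (List.Perm.swap _ _ _)
      have p4 : (br q l ++ br q r).Perm (b₃ :: b₁ :: b₂ :: rest) :=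
        p3.trans (List.Perm.swap _ _ _)
      have f1 := hall b₁ (p1.mem_iff.2 (by simp))
      have f2 := hall b₂ (p1.mem_iff.2 (by simp))
      have f3 := hall b₃ (p1.mem_iff.2 (by simp))
      have g1 := hroot b₁ _ p1 f1
      have g2 := hroot b₂ _ p2 f2
      have g3 := hroot b₃ _ p4 f3
      have g4 := htwo b₁ b₂ _ p1 f1 f2
      have g5 := htwo b₂ b₃ _ p2 f2 f3
      have g6 := htwo b₁ b₃ _ p3 f1 f3
      obtain ⟨i, j, hij, h⟩ := four
        ![p - q, first y b₁ - q, first y b₂ - q, first y b₃ - q] (by
          intro i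
          fin_cases i
          · exact sub_ne_zero.2 hqp.symm
          · exact sub_ne_zero.2 f1
          · exact sub_ne_zero.2 f2
          · exact sub_ne_zero.2 f3)
      have hsymm : ∀ x z : E,
          ¬ -(1 / 2) * (‖x‖ * ‖z‖) < inner ℝ x z → ¬ -(1 / 2) * (‖z‖ * ‖x‖) < inner ℝ z x := by
        intro x z hxz
        rw [mul_comm ‖z‖ ‖x‖, real_inner_comm]
        exact hxz
      fin_cases i <;> fin_cases j
      · exact hij rfl
      · exact g1 h
      · exact g2 h
      · exact g3 h
      · exact hsymm _ _ g1 h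
      · exact hij rfl
      · exact g4 h
      · exact g6 h
      · exact hsymm _ _ g2 h
      · exact hsymm _ _ g4 h
      · exact hij rfl
      · exact g5 h
      · exact hsymm _ _ g3 h
      · exact hsymm _ _ g6 h
      · exact hsymm _ _ g5 h
      · exact hij rfl
    have hkey : ∀ s : PT α E, first y s = q →
        (∃ a, s = PT.leaf a ∧ y a = q) ∨ 2 ≤ (br q s).length := by
      intro s hs
      cases s with
      | leaf a => exact Or.inl ⟨a, rfl, hs⟩
      | node q' s₁ s₂ =>
        have h' : q' = q := hs
        subst h'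
        right
        rw [br_node_self, List.length_append]
        have h1 := List.length_pos_of_ne_nil (br_ne_nil q' s₁)
        have h2 := List.length_pos_of_ne_nil (br_ne_nil q' s₂)
        omega
    have hleaf : ∀ a, (PT.leaf a : PT α E) ∈ br q (PT.leaf a) := by
      intro a
      simp [br]
    have kl : first y l ≠ q := by
      intro h
      rcases hkey l h with ⟨a, h1, h2⟩ | h1
      · exact hZ a (List.mem_append.2 (Or.inl (by rw [h1]; exact hleaf a))) h2
      · apply hlen
        rw [List.length_append]
        have h2 := List.length_pos_of_ne_nil (br_ne_nil q r)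
        omega
    have kr : first y r ≠ q := by
      intro h
      rcases hkey r h with ⟨a, h1, h2⟩ | h1
      · exact hZ a (List.mem_append.2 (Or.inr (by rw [h1]; exact hleaf a))) h2
      · apply hlen
        rw [List.length_append]
        have h2 := List.length_pos_of_ne_nil (br_ne_nil q l)
        omega
    exact ⟨hqp.symm, ihl q hqH hl hndl hol kl, ihr q hqH hr hndr hor kr⟩

end Pool.Agent.Lib.H21Simplex
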