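import Pool.Agent.Lib.H21Cube.Base

/-!
# Chunk K1: an automorphism of a connected graph of degrees at most three which fixes both ends of an
edge has an order which is a power of two
-/

namespace Pool.Agent.Lib.H21Simplex

private theorem k1_step {V : Type*} [Finite V] {G : SimpleGraph V}
    (hdeg : ∀ v, (G.neighborSet v).ncard ≤ 3) {θ : V → V} (hinj : Function.Injective θ)
    (hadj : ∀ a b, G.Adj a b → G.Adj (θ a) (θ b)) {w w' : V} (hw : θ w = w) (hw' : θ w' = w')
    (hww : G.Adj w' w) {u : V} (hu : G.Adj w' u) : θ (θ u) = u := by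
  by_contra hne
  have h1 : u ≠ w := by
    rintro rfl
    exact hne (by rw [hw, hw])
  have h2 : θ u ≠ w := fun h => h1 (hinj (h.trans hw.symm))
  have h3 : θ (θ u) ≠ w := fun h => h2 (hinj (h.trans hw.symm))
  have h4 : θ u ≠ u := fun h => hne (by rw [h, h])
  have h5 : θ (θ u) ≠ θ u := fun h => h4 (hinj h)
  have a1 : G.Adj w' (θ u) := by
    have := hadj _ _ hu
    rwa [hw'] at this
  have a2 : G.Adj w' (θ (θ u)) := by
    have := hadj _ _ a1
    rwa [hw'] at this
  have hsub : ({w, u, θ u, θ (θ u)} : Set V) ⊆ G.neighborSet w' := by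
    intro x hx
    rcases hx with rfl | rfl | rfl | rfl
    · exact hww
    · exact hu
    · exact a1
    · exact a2
  have hcard : ({w, u, θ u, θ (θ u)} : Set V).ncard = 4 := by
    rw [Set.ncard_insert_of_notMem, Set.ncard_insert_of_notMem, Set.ncard_pair h5.symm]
    · rintro (h | h)
      · exact h4 h.symm
      · exact hne h.symm
    · rintro (h | h | h)
      · exact h1 h.symm
      · exact h2 h.symm
      · exact h3 h.symm
  have := Set.ncard_le_ncard hsub (Set.toFinite _)
  have := hdeg w'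
  omega

private theorem k1_adj {V : Type*} {G : SimpleGraph V} (ψ : G ≃g G) (k : ℕ) :
    ∀ a b, G.Adj a b → G.Adj ((ψ^[k]) a) ((ψ^[k]) b) := by
  induction k with
  | zero => exact fun a b h => h
  | succ k ih =>
    intro a b h
    rw [Function.iterate_succ_apply, Function.iterate_succ_apply]
    exact ih _ _ (ψ.map_rel_iff.2 h)

private theorem k1_walk {V : Type*} [Finite V] {G : SimpleGraph V}
    (hdeg : ∀ v, (G.neighborSet v).ncard ≤ 3) {ρ ρ' : V} (hρ : G.Adj ρ ρ')
    (ψ : G ≃g G) (h : ψ ρ = ρ) (h' : ψ ρ' = ρ') : ∀ (k : ℕ) (w : V) (p : G.Walk w ρ),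
      p.length = k → (ψ^[2 ^ (k + 1)]) w = w ∧ ∀ u, G.Adj w u → (ψ^[2 ^ (k + 1)]) u = u := by
  have e : ∀ k x, (ψ^[2 ^ (k + 1)]) x = (ψ^[2 ^ k]) ((ψ^[2 ^ k]) x) := by
    intro k x
    rw [← Function.iterate_add_apply]
    congr 2
    rw [pow_succ]
    ring_nf
  intro k
  induction k with
  | zero =>
    intro w p hp
    have hw : w = ρ := SimpleGraph.Walk.eq_of_length_eq_zero hp
    subst hw
    refine ⟨by rw [e]; simp [h], fun u hu => ?_⟩
    rw [e]
    have h1 := k1_step hdeg ψ.injective (fun a b h => ψ.map_rel_iff.2 h) h' h hρ hu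
    simpa using h1
  | succ k ih =>
    intro w p hp
    cases p with
    | nil => simp at hp
    | cons hadj q =>
      rename_i v
      rw [SimpleGraph.Walk.length_cons] at hp
      obtain ⟨h1, h2⟩ := ih v q (by omega)
      have h3 := h2 w hadj.symm
      have hinj : Function.Injective (ψ^[2 ^ (k + 1)]) := ψ.injective.iterate _
      refine ⟨by rw [e, h3, h3], fun u hu => ?_⟩
      rw [e]
      exact k1_step hdeg hinj (k1_adj ψ _) h1 h3 hadj hu

theorem pow_two_aut_edge {V : Type*} [Finite V] {G : SimpleGraph V} (hc : G.Connected)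
    (hdeg : ∀ v, (G.neighborSet v).ncard ≤ 3) {u v : V} (huv : G.Adj u v)
    (ψ : G ≃g G) (hu : ψ u = u) (hv : ψ v = v) : ∃ m : ℕ, ∀ w, (ψ^[2 ^ m]) w = w := by
  have : Fintype V := Fintype.ofFinite V
  have hw : ∀ w, ∃ k : ℕ, (ψ^[2 ^ k]) w = w := by
    intro w
    obtain ⟨p⟩ := hc.preconnected w u
    exact ⟨p.length + 1, (k1_walk hdeg huv ψ hu hv _ w p rfl).1⟩
  choose f hf using hw
  refine ⟨Finset.univ.sup f, fun w => ?_⟩
  have hle : f w ≤ Finset.univ.sup f := Finset.le_sup (Finset.mem_univ w)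
  obtain ⟨c, hc⟩ := Nat.exists_eq_add_of_le hle
  rw [hc, pow_add, Function.iterate_mul]
  exact Function.iterate_fixed (hf w) _

end Pool.Agent.Lib.H21Simplex
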