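import Pool.Agent.Lib.H21Cube.Base

/-!
# Chunk K2 (M): a group of automorphisms of odd prime power order fixes a vertex
-/

namespace Pool.Agent.Lib.H21Simplex

open Pool.Agent.Lib.H21Steiner

/-- The darts of `G` (or the set of the pairs `x : Vert n × Vert n` with `G.Adj x.1 x.2`) are
`n * 1 + (n - 2) * 3` many (`IsFullTopology`). -/
theorem card_darts {n : ℕ} {G : SimpleGraph (Vert n)} (hG : IsFullTopology G) :
    Nat.card {x : Vert n × Vert n // G.Adj x.1 x.2} = n + (n - 2) * 3 := by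
  have h1 : ∀ v : Vert n, Nat.card {w : Vert n // G.Adj v w} = (G.neighborSet v).ncard := by
    intro v
    exact Nat.card_coe_set_eq (G.neighborSet v)
  rw [Nat.card_congr (Equiv.subtypeProdEquivSigmaSubtype fun v w : Vert n => G.Adj v w),
    Nat.card_sigma, Fintype.sum_sum_type]
  simp only [h1, hG.2.1, hG.2.2, Finset.sum_const, Finset.card_univ, Fintype.card_fin,
    smul_eq_mul, mul_one]

/-- The action of a group of automorphisms on the darts. -/
@[instance_reducible] private def k2act {n : ℕ} (G : SimpleGraph (Vert n)) (P : Subgroup (G ≃g G)) :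
    MulAction P {x : Vert n × Vert n // G.Adj x.1 x.2} where
  smul g x := ⟨((g : G ≃g G) x.1.1, (g : G ≃g G) x.1.2), (g : G ≃g G).map_rel_iff.2 x.2⟩
  one_smul _ := rfl
  mul_smul _ _ _ := rfl

/-- The action of a group of automorphisms on the vertices. -/
@[instance_reducible] private def k2actV {n : ℕ} (G : SimpleGraph (Vert n)) (P : Subgroup (G ≃g G)) :
    MulAction P (Vert n) where
  smul g v := (g : G ≃g G) v
  one_smul _ := rfl
  mul_smul _ _ _ := rfl

private theorem k2vert {n : ℕ} {G : SimpleGraph (Vert n)} {p : ℕ} (hp : p.Prime)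
    (P : Subgroup (G ≃g G)) (hP : IsPGroup p P) (h : ∀ v : Vert n, ∃ g ∈ P, g v ≠ v) :
    p ∣ n + (n - 2) := by
  have : Fact p.Prime := ⟨hp⟩
  let _ := k2actV G P
  have h1 := hP.card_modEq_card_fixedPoints (Vert n)
  have h2 : IsEmpty (MulAction.fixedPoints P (Vert n)) := by
    refine ⟨fun x => ?_⟩
    obtain ⟨g, hg, hne⟩ := h x.1
    exact hne (x.2 ⟨g, hg⟩)
  rw [Nat.card_of_isEmpty (α := MulAction.fixedPoints P (Vert n))] at h1
  have h3 := Nat.modEq_zero_iff_dvd.1 h1
  simpa using h3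

/-- If no dart is fixed by all of `P` then `p` divides the number of the darts. -/
theorem dvd_card_darts {n : ℕ} (hn : 3 ≤ n) {G : SimpleGraph (Vert n)} (hG : IsFullTopology G)
    {p : ℕ} (hp : p.Prime) (P : Subgroup (G ≃g G)) (hP : IsPGroup p P)
    (h : ∀ u v, G.Adj u v → ∃ g ∈ P, g u ≠ u ∨ g v ≠ v) : p ∣ n + (n - 2) * 3 := by
  have : Fact p.Prime := ⟨hp⟩
  let _ := k2act G P
  have h1 := hP.card_modEq_card_fixedPoints {x : Vert n × Vert n // G.Adj x.1 x.2}
  have h2 : IsEmpty (MulAction.fixedPoints P {x : Vert n × Vert n // G.Adj x.1 x.2}) := by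
    refine ⟨fun x => ?_⟩
    obtain ⟨g, hg, hne⟩ := h x.1.1.1 x.1.1.2 x.1.2
    have h3 := congrArg Subtype.val (x.2 ⟨g, hg⟩)
    rcases hne with hne | hne
    · exact hne (congrArg Prod.fst h3)
    · exact hne (congrArg Prod.snd h3)
  rw [Nat.card_of_isEmpty
    (α := MulAction.fixedPoints P {x : Vert n × Vert n // G.Adj x.1 x.2})] at h1
  have h3 := Nat.modEq_zero_iff_dvd.1 h1
  rwa [card_darts hG] at h3

/-- `P` acts on the vertices (`2 n - 2` many) and on the darts (`4 n - 6` many). If there is no fixed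
vertex then there is no fixed dart and `p` divides both numbers (`IsPGroup.card_modEq_card_fixedPoints`),
so `p ∣ 2 (2 n - 2) - (4 n - 6) = 2`. -/
theorem exists_fixed {n : ℕ} (hn : 3 ≤ n) {G : SimpleGraph (Vert n)} (hG : IsFullTopology G)
    {p : ℕ} (hp : p.Prime) (hodd : p ≠ 2) (P : Subgroup (G ≃g G)) (hP : IsPGroup p P) :
    ∃ v : Vert n, ∀ g ∈ P, g v = v := by
  by_contra hcon
  push Not at hcon
  have h1 := k2vert hp P hP hcon
  have h2 : p ∣ n + (n - 2) * 3 := by
    refine dvd_card_darts hn hG hp P hP fun u v _ => ?_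
    obtain ⟨g, hg, hne⟩ := hcon u
    exact ⟨g, hg, Or.inl hne⟩
  have h3 : p ∣ 2 * (n + (n - 2)) - (n + (n - 2) * 3) := Nat.dvd_sub (h1.mul_left 2) h2
  have h4 : 2 * (n + (n - 2)) - (n + (n - 2) * 3) = 2 := by omega
  rw [h4] at h3
  exact hodd ((Nat.prime_dvd_prime_iff_eq hp Nat.prime_two).1 h3)

end Pool.Agent.Lib.H21Simplex
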