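import Pool.Agent.Lib.H21Simplex.K1
import Pool.Agent.Lib.H21Simplex.K2

/-!
# Chunk K3 (M): the order of a group of automorphisms of odd prime power order
-/

namespace Pool.Agent.Lib.H21Simplex

open Pool.Agent.Lib.H21Steiner

private theorem k3pow {V : Type*} {G : SimpleGraph V} (g : G ≃g G) (k : ℕ) (w : V) :
    (g ^ k) w = (g^[k]) w := by
  induction k generalizing w with
  | zero => rfl
  | succ k ih =>
    rw [pow_succ, Function.iterate_succ_apply, ← ih]
    rfl

private theorem k3deg {n : ℕ} {G : SimpleGraph (Vert n)} (hG : IsFullTopology G) (v : Vert n) :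
    0 < (G.neighborSet v).ncard ∧ (G.neighborSet v).ncard ≤ 3 := by
  rcases v with i | s
  · rw [hG.2.1]
    omega
  · rw [hG.2.2]
    omega

private theorem k3fix {n : ℕ} {G : SimpleGraph (Vert n)} (hG : IsFullTopology G)
    {p : ℕ} (hp : p.Prime) (hodd : p ≠ 2) (P : Subgroup (G ≃g G)) (hP : IsPGroup p P)
    {u v : Vert n} (huv : G.Adj u v) {g : G ≃g G} (hg : g ∈ P) (h1 : g u = u) (h2 : g v = v) :
    g = 1 := by
  obtain ⟨m, hm⟩ := pow_two_aut_edge hG.1.1 (fun v => (k3deg hG v).2) huv g h1 h2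
  have h3 : g ^ (2 ^ m) = 1 := by
    ext w
    rw [k3pow, hm]
    rfl
  obtain ⟨k, hk⟩ := hP ⟨g, hg⟩
  have h4 : g ^ (p ^ k) = 1 := congrArg Subtype.val hk
  have h5 := orderOf_dvd_of_pow_eq_one h3
  have h6 := orderOf_dvd_of_pow_eq_one h4
  have h7 : Nat.Coprime (2 ^ m) (p ^ k) :=
    Nat.Coprime.pow _ _ ((Nat.coprime_primes Nat.prime_two hp).2 (Ne.symm hodd))
  have h8 : orderOf g = 1 := Nat.eq_one_of_dvd_coprimes h7 h5 h6
  exact orderOf_eq_one_iff.1 h8

/-- An element of `P` which fixes both ends of an edge is `1` (`pow_two_aut_edge`, its order is a power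
of the odd prime `p` and divides a power of two). Let `v` be the fixed vertex of `exists_fixed` and `w`
a neighbour of `v`. The stabilizer of `w` in `P` is trivial, so the orbit of `w` has `card P` elements,
all of them neighbours of `v`: `card P ≤ 3`, so `card P` is `1` or `3` (a power of an odd prime).
If `card P = 3` then `p = 3` and no dart is fixed by `P`, so `3 ∣ n + (n - 2) * 3` by `dvd_card_darts`,
`3 ∣ n`. -/
theorem card_dvd {n : ℕ} (hn : 3 ≤ n) {G : SimpleGraph (Vert n)} (hG : IsFullTopology G)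
    {p : ℕ} (hp : p.Prime) (hodd : p ≠ 2) (P : Subgroup (G ≃g G)) (hP : IsPGroup p P) :
    Nat.card P ∣ Nat.gcd 3 n := by
  have : Fact p.Prime := ⟨hp⟩
  have : Finite (G ≃g G) :=
    Finite.of_injective (fun g : G ≃g G => (g : Vert n → Vert n)) DFunLike.coe_injective
  obtain ⟨v, hv⟩ := exists_fixed hn hG hp hodd P hP
  obtain ⟨w, hw⟩ := (Set.ncard_pos (Set.toFinite _)).1 (k3deg hG v).1
  have hw' : G.Adj v w := hw
  let f : P → G.neighborSet v := fun g => ⟨(g : G ≃g G) w, by
    have h := (g : G ≃g G).map_rel_iff.2 hw'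
    rw [hv _ g.2] at h
    exact h⟩
  have hf : Function.Injective f := by
    intro g h hgh
    have h1 : (g : G ≃g G) w = (h : G ≃g G) w := congrArg Subtype.val hgh
    have h2 : ((h : G ≃g G)⁻¹ * g) = 1 := by
      refine k3fix hG hp hodd P hP hw' (P.mul_mem (P.inv_mem h.2) g.2) ?_ ?_
      · have h3 := hv _ (P.mul_mem (P.inv_mem h.2) g.2)
        exact h3
      · change (h : G ≃g G).symm ((g : G ≃g G) w) = w
        rw [h1]
        exact (h : G ≃g G).symm_apply_apply w
    exact Subtype.ext (inv_mul_eq_one.1 h2).symm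
  have hc : Nat.card P ≤ 3 := by
    refine (Nat.card_le_card_of_injective f hf).trans ?_
    rw [Nat.card_coe_set_eq]
    exact (k3deg hG v).2
  obtain ⟨k, hk⟩ := IsPGroup.iff_card.1 hP
  rcases Nat.eq_zero_or_pos k with rfl | hk0
  · rw [hk]
    simp
  · have hp3 : 3 ≤ p := by
      have := hp.two_le
      omega
    have h1 : p ≤ p ^ k := Nat.le_self_pow hk0.ne' p
    have h2 : p = 3 := by omega
    have h3 : Nat.card P = 3 := by omega
    rw [h3]
    refine Nat.dvd_gcd dvd_rfl ?_
    have h4 : p ∣ n + (n - 2) * 3 := by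
      refine dvd_card_darts hn hG hp P hP fun a b hab => ?_
      by_contra hcon
      push Not at hcon
      have h5 : Nat.card P = 1 := by
        rw [Nat.card_eq_one_iff_unique]
        refine ⟨⟨fun x y => ?_⟩, ⟨1⟩⟩
        have hx := k3fix hG hp hodd P hP hab x.2 (hcon _ x.2).1 (hcon _ x.2).2
        have hy := k3fix hG hp hodd P hP hab y.2 (hcon _ y.2).1 (hcon _ y.2).2
        exact Subtype.ext (hx.trans hy.symm)
      omega
    rw [h2] at h4
    omega

end Pool.Agent.Lib.H21Simplex
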