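import Pool.Agent.Lib.H21Simplex.K3
import Pool.Agent.Lib.H21Cube.C2

/-!
# Chunk K4 (M/L): the number of topologies in an orbit, without a fixed terminal
-/

namespace Pool.Agent.Lib.H21Simplex

open Pool.Agent.Lib.H21Steiner Pool.Agent.Lib.H21Cube

/-- The permutations of the terminals which come from an automorphism of the topology. -/
private def k4stab {n : ℕ} (G : SimpleGraph (Vert n)) {Γ : Type*} [Group Γ]
    (ι : Γ →* Equiv.Perm (Fin n)) : Subgroup Γ where
  carrier := {h | ∃ ψ : G ≃g G, ∀ i, ψ (Sum.inl i) = Sum.inl (ι h i)}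
  one_mem' := ⟨SimpleGraph.Iso.refl, fun i => by rw [map_one]; rfl⟩
  mul_mem' := by
    rintro a b ⟨φ, hφ⟩ ⟨ψ, hψ⟩
    refine ⟨ψ.trans φ, fun i => ?_⟩
    have h1 : (ψ.trans φ) (Sum.inl i) = φ (ψ (Sum.inl i)) := rfl
    rw [h1, hψ, hφ, map_mul]
    rfl
  inv_mem' := by
    rintro a ⟨φ, hφ⟩
    refine ⟨φ.symm, fun i => ?_⟩
    have h1 : φ (Sum.inl (ι a⁻¹ i)) = Sum.inl i := by
      rw [hφ, ← Equiv.Perm.mul_apply, ← map_mul, mul_inv_cancel, map_one]
      rfl
    rw [← h1]
    exact φ.symm_apply_apply _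

/-- The isomorphism of a topology with the topology with permuted terminals. -/
private noncomputable def k4iso {n : ℕ} (G : SimpleGraph (Vert n)) (σ : Equiv.Perm (Fin n)) :
    G ≃g G.map (vperm σ).toEmbedding := SimpleGraph.Iso.map (vperm σ) G

private theorem k4iso_inl {n : ℕ} (G : SimpleGraph (Vert n)) (σ : Equiv.Perm (Fin n)) (i : Fin n) :
    k4iso G σ (Sum.inl i) = Sum.inl (σ i) := rfl

private theorem k4iso_symm_inl {n : ℕ} (G : SimpleGraph (Vert n)) (σ : Equiv.Perm (Fin n))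
    (i : Fin n) : (k4iso G σ).symm (Sum.inl i) = Sum.inl (σ⁻¹ i) := by
  have h1 : k4iso G σ (Sum.inl (σ⁻¹ i)) = Sum.inl i := by
    rw [k4iso_inl, ← Equiv.Perm.mul_apply, mul_inv_cancel]
    rfl
  rw [← h1]
  exact (k4iso G σ).symm_apply_apply _

private theorem k4same {n : ℕ} {G : SimpleGraph (Vert n)} {Γ : Type*} [Group Γ]
    {ι : Γ →* Equiv.Perm (Fin n)} {g g' : Γ}
    (h : SameTopology (G.map (vperm (ι g)).toEmbedding) (G.map (vperm (ι g')).toEmbedding)) :
    g'⁻¹ * g ∈ k4stab G ι := by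
  obtain ⟨φ, hφ⟩ := h
  refine ⟨((k4iso G (ι g)).trans φ).trans (k4iso G (ι g')).symm, fun i => ?_⟩
  have h1 : (((k4iso G (ι g)).trans φ).trans (k4iso G (ι g')).symm) (Sum.inl i)
      = (k4iso G (ι g')).symm (φ (k4iso G (ι g) (Sum.inl i))) := rfl
  rw [h1, k4iso_inl, hφ, k4iso_symm_inl, map_mul, map_inv]
  rfl

private theorem k4same' {n : ℕ} {G : SimpleGraph (Vert n)} {Γ : Type*} [Group Γ]
    {ι : Γ →* Equiv.Perm (Fin n)} {g g' : Γ} (h : g'⁻¹ * g ∈ k4stab G ι) :
    SameTopology (G.map (vperm (ι g)).toEmbedding) (G.map (vperm (ι g')).toEmbedding) := by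
  obtain ⟨ψ, hψ⟩ := h
  refine ⟨((k4iso G (ι g)).symm.trans ψ).trans (k4iso G (ι g')), fun i => ?_⟩
  have h1 : (((k4iso G (ι g)).symm.trans ψ).trans (k4iso G (ι g'))) (Sum.inl i)
      = (k4iso G (ι g')) (ψ ((k4iso G (ι g)).symm (Sum.inl i))) := rfl
  have h2 : (ι g') ((ι (g'⁻¹ * g)) ((ι g)⁻¹ i)) = i := by
    rw [← map_inv, ← Equiv.Perm.mul_apply, ← Equiv.Perm.mul_apply, ← map_mul, ← map_mul]
    have h3 : g' * (g'⁻¹ * g) * g⁻¹ = 1 := by group
    rw [h3, map_one]
    rfl
  rw [h1, k4iso_symm_inl, hψ, k4iso_inl, h2]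

/-- The pairs of a group element and an automorphism of the topology which act alike on the terminals. -/
private def k4pairs {n : ℕ} (G : SimpleGraph (Vert n)) {Γ : Type*} [Group Γ]
    (ι : Γ →* Equiv.Perm (Fin n)) : Subgroup (Γ × (G ≃g G)) where
  carrier := {x | ∀ i, x.2 (Sum.inl i) = Sum.inl (ι x.1 i)}
  one_mem' := fun i => by
    change (Sum.inl i : Vert n) = Sum.inl (ι 1 i)
    rw [map_one]
    rfl
  mul_mem' := by
    rintro ⟨a, φ⟩ ⟨b, ψ⟩ ha hb i
    have ha' : ∀ i, φ (Sum.inl i) = Sum.inl (ι a i) := ha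
    have hb' : ∀ i, ψ (Sum.inl i) = Sum.inl (ι b i) := hb
    change φ (ψ (Sum.inl i)) = Sum.inl (ι (a * b) i)
    rw [hb', ha', map_mul]
    rfl
  inv_mem' := by
    rintro ⟨a, φ⟩ ha i
    have ha' : ∀ i, φ (Sum.inl i) = Sum.inl (ι a i) := ha
    change φ.symm (Sum.inl i) = Sum.inl (ι a⁻¹ i)
    have h1 : φ (Sum.inl (ι a⁻¹ i)) = Sum.inl i := by
      rw [ha', ← Equiv.Perm.mul_apply, ← map_mul, mul_inv_cancel, map_one]
      rfl
    rw [← h1]
    exact φ.symm_apply_apply _

private theorem k4card {n : ℕ} (G : SimpleGraph (Vert n)) {Γ : Type*} [Group Γ] [Finite Γ]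
    (ι : Γ →* Equiv.Perm (Fin n)) (hι : Function.Injective ι) :
    Nat.card (k4stab G ι) ∣ Nat.card (G ≃g G) := by
  have : Finite (G ≃g G) :=
    Finite.of_injective (fun g : G ≃g G => (g : Vert n → Vert n)) DFunLike.coe_injective
  let f : k4pairs G ι →* k4stab G ι :=
    { toFun := fun x => ⟨x.1.1, x.1.2, x.2⟩
      map_one' := rfl
      map_mul' := fun _ _ => rfl }
  have hf : Function.Surjective f := by
    rintro ⟨g, ψ, hψ⟩
    exact ⟨⟨(g, ψ), hψ⟩, rfl⟩
  let e : k4pairs G ι →* (G ≃g G) := (MonoidHom.snd Γ (G ≃g G)).comp (k4pairs G ι).subtype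
  have he : Function.Injective e := by
    rintro ⟨⟨a, φ⟩, ha⟩ ⟨⟨b, ψ⟩, hb⟩ hab
    have hab' : φ = ψ := hab
    subst hab'
    have h1 : a = b := by
      apply hι
      ext i
      have h2 : (Sum.inl (ι a i) : Vert n) = Sum.inl (ι b i) := (ha i).symm.trans (hb i)
      exact congrArg Fin.val (Sum.inl_injective h2)
    subst h1
    rfl
  exact (Subgroup.card_dvd_of_surjective f hf).trans (Subgroup.card_dvd_of_injective e he)

private theorem k4odd {n : ℕ} (hn : 3 ≤ n) {G : SimpleGraph (Vert n)} (hG : IsFullTopology G)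
    {N : ℕ} (hN : Odd N) (hdvd : N ∣ Nat.card (G ≃g G)) : N ∣ Nat.gcd 3 n := by
  have : Finite (G ≃g G) :=
    Finite.of_injective (fun g : G ≃g G => (g : Vert n → Vert n)) DFunLike.coe_injective
  rw [Nat.dvd_iff_prime_pow_dvd_dvd]
  intro p k hp hk
  rcases Nat.eq_zero_or_pos k with rfl | hk0
  · simp
  · have : Fact p.Prime := ⟨hp⟩
    have hp2 : p ≠ 2 := by
      rintro rfl
      have h1 : 2 ∣ N := (dvd_pow_self 2 hk0.ne').trans hk
      exact (Nat.not_even_iff_odd.2 hN) (even_iff_two_dvd.2 h1)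
    obtain ⟨K, hK⟩ := Sylow.exists_subgroup_card_pow_prime p (hk.trans hdvd)
    have h2 := card_dvd hn hG hp hp2 K (IsPGroup.of_card hK)
    rwa [hK] at h2

/-- As `H21Cube.count` (copy its private lemmas from `H21Cube/C2.lean`), but without a fixed terminal.
`H` is the subgroup of the `g` such that `ι g` comes from an automorphism of `G`, `m ∣ card H * index H`.
For an odd prime `p` a Sylow `p`-subgroup of `H` is (by `ι`, injective) the image of ... so
`card H ∣ card (G ≃g G)`: let `A` be the subgroup of the `(g, ψ)` in `Γ × (G ≃g G)` with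
`ψ (inl i) = inl (ι g i)`; the projection `A → H` is surjective, the projection `A → (G ≃g G)` is
injective (`ι` injective). So `card H ∣ card A ∣ card (G ≃g G)`. By `card_dvd` for the Sylow subgroups of
`G ≃g G`, `p ^ (factorization p)` of `card (G ≃g G)` divides `gcd 3 n` for every odd prime `p`, and so
`m ∣ gcd 3 n * index H` for `m` odd with `m ∣ card H * index H`. -/
theorem count3 {n : ℕ} (hn : 3 ≤ n) {G : SimpleGraph (Vert n)} (hG : IsFullTopology G)
    {Γ : Type*} [Group Γ] [Finite Γ] (ι : Γ →* Equiv.Perm (Fin n)) (hι : Function.Injective ι)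
    (S : Set (SimpleGraph (Vert n))) (hS : ∀ g, G.map (vperm (ι g)).toEmbedding ∈ S) {m : ℕ}
    (hodd : Odd m) (hm : m ∣ Nat.card Γ) :
    (m : ℕ∞) ≤ ((Nat.gcd 3 n : ℕ) : ℕ∞) * (Quotient.mk (topologySetoid n) '' S).encard := by
  have : Finite (G ≃g G) :=
    Finite.of_injective (fun g : G ≃g G => (g : Vert n → Vert n)) DFunLike.coe_injective
  have hpos : Nat.card (k4stab G ι) ≠ 0 := Nat.card_pos.ne'
  obtain ⟨s, N, hN, hs⟩ := Nat.exists_eq_two_pow_mul_odd hpos
  have hNdvd : N ∣ Nat.gcd 3 n :=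
    k4odd hn hG hN ((Dvd.intro_left (2 ^ s) hs.symm).trans (k4card G ι hι))
  have hidx : m ∣ Nat.gcd 3 n * (k4stab G ι).index := by
    have h1 := Subgroup.card_mul_index (k4stab G ι)
    rw [hs, mul_assoc] at h1
    rw [← h1] at hm
    exact ((Nat.Coprime.pow_right s (Nat.coprime_two_right.2 hodd)).dvd_of_dvd_mul_left hm).trans
      (mul_dvd_mul_right hNdvd _)
  have hle : m ≤ Nat.gcd 3 n * (k4stab G ι).index :=
    Nat.le_of_dvd (Nat.mul_pos (Nat.gcd_pos_of_pos_left n (by norm_num))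
      (Nat.pos_of_ne_zero Subgroup.index_ne_zero_of_finite)) hidx
  -- the map from the cosets
  let f : Γ ⧸ k4stab G ι → Quotient (topologySetoid n) :=
    Quotient.lift (fun g => Quotient.mk (topologySetoid n) (G.map (vperm (ι g)).toEmbedding))
      (by
        intro a b hab
        have h1 : a⁻¹ * b ∈ k4stab G ι := QuotientGroup.leftRel_apply.1 hab
        apply Quotient.sound
        apply k4same'
        have h2 := (k4stab G ι).inv_mem h1
        rwa [mul_inv_rev, inv_inv] at h2)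
  have hf : Function.Injective f := by
    intro x y hxy
    induction x using QuotientGroup.induction_on with
    | H a =>
      induction y using QuotientGroup.induction_on with
      | H b =>
        have h1 : SameTopology (G.map (vperm (ι a)).toEmbedding)
            (G.map (vperm (ι b)).toEmbedding) := Quotient.exact hxy
        have h2 := k4same h1
        rw [QuotientGroup.eq]
        have h3 := (k4stab G ι).inv_mem h2
        rwa [mul_inv_rev, inv_inv] at h3
  have hsub : Set.range f ⊆ Quotient.mk (topologySetoid n) '' S := by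
    rintro _ ⟨x, rfl⟩
    induction x using QuotientGroup.induction_on with
    | H a => exact ⟨_, hS a, rfl⟩
  have hcard : (Set.range f).encard = ((k4stab G ι).index : ℕ∞) := by
    rw [← Set.image_univ, hf.encard_image, Set.encard_univ, ENat.card_eq_coe_natCard]
    rfl
  calc (m : ℕ∞) ≤ ((Nat.gcd 3 n * (k4stab G ι).index : ℕ) : ℕ∞) := by exact_mod_cast hle
    _ = ((Nat.gcd 3 n : ℕ) : ℕ∞) * ((k4stab G ι).index : ℕ∞) := by push_cast; rfl
    _ = ((Nat.gcd 3 n : ℕ) : ℕ∞) * (Set.range f).encard := by rw [hcard]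
    _ ≤ _ := mul_le_mul_right (Set.encard_le_encard hsub) _

end Pool.Agent.Lib.H21Simplex
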