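import Pool.Agent.Lib.H21Cube.Base

/-!
# Chunk S1 (M): families with the same Gram matrix are congruent
-/

namespace Pool.Agent.Lib.H21Simplex

/-- `A c = ∑ c i • a i`, `B c = ∑ c i • b i` (`Fintype.linearCombination`) satisfy `‖A c‖ = ‖B c‖`, so
`ker A ≤ ker B`, and `f : range A →ₗ E` with `f (A c) = B c` (`(ker A).liftQ B`,
`LinearMap.quotKerEquivRange`) is an isometry; extend it by `LinearIsometry.extend` and take
`LinearIsometry.toLinearIsometryEquiv`. -/
theorem exists_isometry_of_gram {d : ℕ} {ι : Type*} [Fintype ι]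
    (a b : ι → EuclideanSpace ℝ (Fin d))
    (h : ∀ i j, inner ℝ (a i) (a j) = inner ℝ (b i) (b j)) :
    ∃ Φ : EuclideanSpace ℝ (Fin d) ≃ₗᵢ[ℝ] EuclideanSpace ℝ (Fin d), ∀ i, Φ (a i) = b i := by
  classical
  let A : (ι → ℝ) →ₗ[ℝ] EuclideanSpace ℝ (Fin d) := Fintype.linearCombination ℝ a
  let B : (ι → ℝ) →ₗ[ℝ] EuclideanSpace ℝ (Fin d) := Fintype.linearCombination ℝ b
  have hA : ∀ c, A c = ∑ i, c i • a i := fun c => Fintype.linearCombination_apply ℝ a c
  have hB : ∀ c, B c = ∑ i, c i • b i := fun c => Fintype.linearCombination_apply ℝ b c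
  have hn : ∀ c, ‖A c‖ = ‖B c‖ := by
    intro c
    have h2 : inner ℝ (A c) (A c) = inner ℝ (B c) (B c) := by
      rw [hA, hB]
      simp only [sum_inner, inner_sum, inner_smul_left, inner_smul_right, h]
    rw [real_inner_self_eq_norm_sq, real_inner_self_eq_norm_sq] at h2
    exact (sq_eq_sq₀ (norm_nonneg _) (norm_nonneg _)).1 h2
  have hker : LinearMap.ker A ≤ LinearMap.ker B := by
    intro c hc
    rw [LinearMap.mem_ker] at hc ⊢
    have := hn c
    rw [hc, norm_zero] at this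
    exact norm_eq_zero.1 this.symm
  let f : LinearMap.range A →ₗ[ℝ] EuclideanSpace ℝ (Fin d) :=
    ((LinearMap.ker A).liftQ B hker) ∘ₗ (A.quotKerEquivRange.symm : LinearMap.range A →ₗ[ℝ] _)
  have hf : ∀ c (hc : A c ∈ LinearMap.range A), f ⟨A c, hc⟩ = B c := by
    intro c hc
    have h1 : A.quotKerEquivRange.symm ⟨A c, hc⟩ = (LinearMap.ker A).mkQ c := by
      rw [LinearEquiv.symm_apply_eq]
      rfl
    show ((LinearMap.ker A).liftQ B hker) (A.quotKerEquivRange.symm ⟨A c, hc⟩) = B c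
    rw [h1]
    rfl
  let F : LinearMap.range A →ₗᵢ[ℝ] EuclideanSpace ℝ (Fin d) :=
    { toLinearMap := f
      norm_map' := by
        rintro ⟨x, hx⟩
        obtain ⟨c, rfl⟩ := hx
        rw [hf c]
        exact (hn c).symm }
  refine ⟨F.extend.toLinearIsometryEquiv rfl, fun i => ?_⟩
  have hai : A (Pi.single i 1) = a i := by
    rw [hA]; simp [Pi.single_apply]
  have hbi : B (Pi.single i 1) = b i := by
    rw [hB]; simp [Pi.single_apply]
  have hmem : A (Pi.single i 1) ∈ LinearMap.range A := ⟨_, rfl⟩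
  have h3 : F.extend (A (Pi.single i 1)) = F ⟨A (Pi.single i 1), hmem⟩ :=
    F.extend_apply ⟨A (Pi.single i 1), hmem⟩
  have h4 : F ⟨A (Pi.single i 1), hmem⟩ = B (Pi.single i 1) := hf _ hmem
  rw [LinearIsometry.coe_toLinearIsometryEquiv, ← hai, h3, h4, hbi]

end Pool.Agent.Lib.H21Simplex
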