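import Pool.Agent.Lib.H21Cube.Base

/-!
# Chunk S2 (M): the vertices of a regular simplex with `n ≤ d + 1` vertices
-/

namespace Pool.Agent.Lib.H21Simplex

private theorem S2_consts (m : ℕ) (hm : 1 ≤ m) :
    ∃ s q : ℝ, (m : ℝ) * s ^ 2 - 2 * s = - (1 / ((m : ℝ) + 1)) ∧
      q * (1 - m * s) = 1 / ((m : ℝ) + 1) ∧ (m : ℝ) * q ^ 2 = 1 - 1 / ((m : ℝ) + 1) := by
  have hm0 : (0 : ℝ) < m := by exact_mod_cast hm
  have hpos : (0 : ℝ) < (m : ℝ) + 1 := by positivity
  obtain ⟨r, hr, hr2⟩ : ∃ r : ℝ, 0 < r ∧ r ^ 2 = (m : ℝ) + 1 :=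
    ⟨Real.sqrt ((m : ℝ) + 1), Real.sqrt_pos.mpr hpos, Real.sq_sqrt hpos.le⟩
  have hmr : (m : ℝ) = r ^ 2 - 1 := by rw [hr2]; ring
  have hr21 : r ^ 2 - 1 ≠ 0 := by rw [← hmr]; exact hm0.ne'
  refine ⟨(1 - 1 / r) / m, 1 / r, ?_, ?_, ?_⟩
  · rw [← hr2, hmr]
    field_simp
    ring
  · rw [← hr2, hmr]
    field_simp
    ring
  · rw [← hr2, hmr]
    field_simp

/-- `m = n - 1 ≤ d`. For `n = 1` take `0`. For `n ≥ 2`: with `u` the sum of the first `m` unit vectors,
`s = (1 - 1/√n)/m`, `q = 1/√n`, let `a i = e_i - s u` for `i < m` and `a m = - q u`. Then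
`⟪a i, a j⟫ = δ_ij - 2 s + m s² = δ_ij - 1/n`, `⟪a i, a m⟫ = - q (1 - m s) = - 1/n`,
`⟪a m, a m⟫ = m q² = 1 - 1/n`. Any other construction is fine. -/
theorem exists_simplex {d n : ℕ} (hn : 1 ≤ n) (h : n ≤ d + 1) :
    ∃ a : Fin n → EuclideanSpace ℝ (Fin d),
      ∀ i j, inner ℝ (a i) (a j) = (if i = j then (1 : ℝ) else 0) - 1 / n := by
  obtain ⟨m, rfl⟩ : ∃ m, n = m + 1 := ⟨n - 1, by omega⟩
  rcases Nat.eq_zero_or_pos m with hm0 | hm1
  · subst hm0
    refine ⟨fun _ => 0, fun i j => ?_⟩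
    have hij : i = j := Fin.ext (by omega)
    subst hij
    simp
  have hm : m ≤ d := by omega
  obtain ⟨s, q, h1, h2, h3⟩ := S2_consts m hm1
  obtain ⟨e, he⟩ : ∃ e : Fin m → EuclideanSpace ℝ (Fin d),
      ∀ i j, inner ℝ (e i) (e j) = if i = j then (1 : ℝ) else 0 := by
    refine ⟨fun i => EuclideanSpace.basisFun (Fin d) ℝ (Fin.castLE hm i), ?_⟩
    exact orthonormal_iff_ite.mp
      ((EuclideanSpace.basisFun (Fin d) ℝ).orthonormal.comp _ (Fin.castLE_injective hm))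
  obtain ⟨u, hu⟩ : ∃ u : EuclideanSpace ℝ (Fin d), u = ∑ i, e i := ⟨_, rfl⟩
  have heu : ∀ i, inner ℝ (e i) u = (1 : ℝ) := by
    intro i
    rw [hu, inner_sum]
    simp [he]
  have hue : ∀ i, inner ℝ u (e i) = (1 : ℝ) := by
    intro i
    rw [real_inner_comm]
    exact heu i
  have huu : inner ℝ u u = (m : ℝ) := by
    nth_rewrite 1 [hu]
    rw [sum_inner]
    simp [heu]
  refine ⟨Fin.snoc (fun i => e i - s • u) (-(q • u)), ?_⟩
  have hcast : ((m + 1 : ℕ) : ℝ) = (m : ℝ) + 1 := by push_cast; ring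
  intro i j
  rw [hcast]
  refine Fin.lastCases ?_ (fun i => ?_) i
  · refine Fin.lastCases ?_ (fun j => ?_) j
    · rw [Fin.snoc_last, inner_neg_neg, inner_smul_left, inner_smul_right, huu]
      simp only [if_true, conj_trivial]
      linarith
    · rw [Fin.snoc_last, Fin.snoc_castSucc, inner_neg_left, inner_smul_left, inner_sub_right,
        inner_smul_right, huu, hue, if_neg (Fin.castSucc_lt_last j).ne']
      simp only [conj_trivial]
      linarith
  · refine Fin.lastCases ?_ (fun j => ?_) j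
    · rw [Fin.snoc_last, Fin.snoc_castSucc, inner_neg_right, inner_smul_right, inner_sub_left,
        inner_smul_left, huu, heu, if_neg (Fin.castSucc_lt_last i).ne]
      simp only [conj_trivial]
      linarith
    · rw [Fin.snoc_castSucc, Fin.snoc_castSucc, inner_sub_left, inner_sub_right, inner_sub_right,
        inner_smul_left, inner_smul_left, inner_smul_right, inner_smul_right, huu, hue, heu, he]
      simp only [conj_trivial, Fin.castSucc_inj]
      linarith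

end Pool.Agent.Lib.H21Simplex
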