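import Pool.Agent.Lib.H21Simplex.S2

/-!
# A regular simplex and the vertices of a cube in the orthogonal complement
-/

namespace Pool.Agent.Lib.H21Simplex

/-- Points of a product. -/
private noncomputable def s3join {p e : ℕ} (u : EuclideanSpace ℝ (Fin p))
    (w : EuclideanSpace ℝ (Fin e)) : EuclideanSpace ℝ (Fin (p + e)) :=
  WithLp.toLp 2 (Fin.append (fun i => u i) (fun j => w j))

private theorem s3_inner {p e : ℕ} (u u' : EuclideanSpace ℝ (Fin p))
    (w w' : EuclideanSpace ℝ (Fin e)) :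
    inner ℝ (s3join u w) (s3join u' w') = inner ℝ u u' + inner ℝ w w' := by
  simp only [PiLp.inner_apply, s3join]
  rw [Fin.sum_univ_add]
  simp

/-- A vertex of the cube. -/
private noncomputable def s3w (e : ℕ) (s : ℝ) (m : ℕ) : EuclideanSpace ℝ (Fin e) :=
  WithLp.toLp 2 (fun j => if m.testBit j.val then s else -s)

private theorem s3w_apply (e : ℕ) (s : ℝ) (m : ℕ) (j : Fin e) :
    s3w e s m j = if m.testBit j.val then s else -s := rfl

private theorem s3w_cases (e : ℕ) (s : ℝ) (m : ℕ) (j : Fin e) :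
    s3w e s m j = s ∨ s3w e s m j = -s := by
  rw [s3w_apply]
  split_ifs
  · exact Or.inl rfl
  · exact Or.inr rfl

private theorem s3w_inner (e : ℕ) (s : ℝ) (m m' : ℕ) :
    inner ℝ (s3w e s m) (s3w e s m') = ∑ j, s3w e s m j * s3w e s m' j := by
  simp only [PiLp.inner_apply]
  refine Finset.sum_congr rfl fun j _ => ?_
  simp [mul_comm]

private theorem s3w_self {e : ℕ} {s : ℝ} (hs : s ^ 2 * e = 1 / 2) (m : ℕ) :
    inner ℝ (s3w e s m) (s3w e s m) = 1 / 2 := by
  rw [s3w_inner, ← hs]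
  have h : ∀ j ∈ (Finset.univ : Finset (Fin e)), s3w e s m j * s3w e s m j = s ^ 2 := by
    intro j _
    rcases s3w_cases e s m j with h | h <;> rw [h] <;> ring
  rw [Finset.sum_congr rfl h, Finset.sum_const, Finset.card_univ, Fintype.card_fin, nsmul_eq_mul]
  ring

private theorem s3w_le {e : ℕ} {s : ℝ} (hs : s ^ 2 * e = 1 / 2) (m m' : ℕ) :
    inner ℝ (s3w e s m) (s3w e s m') ≤ 1 / 2 := by
  rw [s3w_inner, ← hs]
  have h : ∀ j ∈ (Finset.univ : Finset (Fin e)), s3w e s m j * s3w e s m' j ≤ s ^ 2 := by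
    intro j _
    rcases s3w_cases e s m j with h | h <;> rcases s3w_cases e s m' j with h' | h' <;>
      rw [h, h'] <;> nlinarith [sq_nonneg s]
  refine (Finset.sum_le_sum h).trans ?_
  rw [Finset.sum_const, Finset.card_univ, Fintype.card_fin, nsmul_eq_mul]
  exact le_of_eq (by ring)

private theorem s3w_ge {e : ℕ} {s : ℝ} (hs : s ^ 2 * e = 1 / 2) (m m' : ℕ) :
    -(1 / 2) ≤ inner ℝ (s3w e s m) (s3w e s m') := by
  rw [s3w_inner, ← hs]
  have h : ∀ j ∈ (Finset.univ : Finset (Fin e)), -s ^ 2 ≤ s3w e s m j * s3w e s m' j := by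
    intro j _
    rcases s3w_cases e s m j with h | h <;> rcases s3w_cases e s m' j with h' | h' <;>
      rw [h, h'] <;> nlinarith [sq_nonneg s]
  refine le_trans ?_ (Finset.sum_le_sum h)
  rw [Finset.sum_const, Finset.card_univ, Fintype.card_fin, nsmul_eq_mul]
  exact le_of_eq (by ring)

private theorem s3w_angle (e : ℕ) (s : ℝ) (i j l : ℕ) :
    0 ≤ inner ℝ (s3w e s j) (s3w e s l) - inner ℝ (s3w e s j) (s3w e s i)
      - inner ℝ (s3w e s i) (s3w e s l) + inner ℝ (s3w e s i) (s3w e s i) := by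
  rw [s3w_inner, s3w_inner, s3w_inner, s3w_inner, ← Finset.sum_sub_distrib,
    ← Finset.sum_sub_distrib, ← Finset.sum_add_distrib]
  refine Finset.sum_nonneg fun c _ => ?_
  rcases s3w_cases e s i c with h | h <;> rcases s3w_cases e s j c with h' | h' <;>
    rcases s3w_cases e s l c with h'' | h'' <;>
      rw [h, h', h''] <;> nlinarith [sq_nonneg s]

private theorem s3w_inj {e : ℕ} {s : ℝ} (hs : s ≠ 0) {m m' : ℕ} (hm : m < 2 ^ e)
    (hm' : m' < 2 ^ e) (h : s3w e s m = s3w e s m') : m = m' := by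
  apply Nat.eq_of_testBit_eq
  intro b
  by_cases hb : b < e
  · have h1 : s3w e s m ⟨b, hb⟩ = s3w e s m' ⟨b, hb⟩ := by rw [h]
    rw [s3w_apply, s3w_apply] at h1
    by_cases h2 : m.testBit b = true <;> by_cases h3 : m'.testBit b = true
    · rw [h2, h3]
    · rw [if_pos h2, if_neg h3] at h1
      exact absurd (by linarith) hs
    · rw [if_neg h2, if_pos h3] at h1
      exact absurd (by linarith) hs
    · rw [Bool.not_eq_true] at h2 h3
      rw [h2, h3]
  · have hle : 2 ^ e ≤ 2 ^ b := Nat.pow_le_pow_right (by norm_num) (by omega)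
    rw [Nat.testBit_lt_two_pow (by omega), Nat.testBit_lt_two_pow (by omega)]

private theorem s3_inner_sub_sub {d : ℕ} (u v w : EuclideanSpace ℝ (Fin d)) :
    inner ℝ (u - w) (v - w) = inner ℝ u v - inner ℝ u w - inner ℝ w v + inner ℝ w w := by
  rw [inner_sub_left, inner_sub_right, inner_sub_right]
  ring

/-- The first `k` points are the vertices of a regular simplex centred at the origin, the others are
vertices of a cube in the orthogonal complement. -/
theorem exists_family {d k n : ℕ} (hk2 : 2 ≤ k) (hkd : k ≤ d) (h1 : k < n)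
    (h2 : n ≤ k + 2 ^ (d + 1 - k)) :
    ∃ (a : Fin n → EuclideanSpace ℝ (Fin d)) (ι : Equiv.Perm (Fin k) →* Equiv.Perm (Fin n))
      (r : Fin n), Function.Injective a ∧ (∀ i j l, 0 ≤ inner ℝ (a j - a i) (a l - a i)) ∧
        Function.Injective ι ∧ (∀ g, ι g r = r) ∧
        ∀ g i j, inner ℝ (a (ι g i)) (a (ι g j)) = inner ℝ (a i) (a j) := by
  obtain ⟨p, rfl⟩ : ∃ p, k = p + 1 := ⟨k - 1, by omega⟩
  obtain ⟨e, rfl⟩ : ∃ e, d = p + e := ⟨d - p, by omega⟩
  have he : p + e + 1 - (p + 1) = e := by omega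
  rw [he] at h2
  have he1 : 1 ≤ e := by omega
  obtain ⟨b, hb⟩ := exists_simplex (d := p) (n := p + 1) (by omega) le_rfl
  obtain ⟨s, hs⟩ : ∃ s : ℝ, s = Real.sqrt (1 / (2 * e)) := ⟨_, rfl⟩
  have hepos : (0 : ℝ) < e := by exact_mod_cast he1
  have hs2 : s ^ 2 * e = 1 / 2 := by
    rw [hs, Real.sq_sqrt (by positivity)]
    field_simp
  have hs0 : s ≠ 0 := by
    rintro rfl
    norm_num at hs2
  have hk' : (1 : ℝ) / ((p + 1 : ℕ) : ℝ) ≤ 1 / 2 := by
    apply one_div_le_one_div_of_le (by norm_num)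
    exact_mod_cast hk2
  have hk'' : (0 : ℝ) < 1 / ((p + 1 : ℕ) : ℝ) := by positivity
  obtain ⟨κ, hκ⟩ : ∃ κ : ℝ, κ = 1 / ((p + 1 : ℕ) : ℝ) := ⟨_, rfl⟩
  rw [← hκ] at hk' hk'' hb
  -- the points
  obtain ⟨a, ha⟩ : ∃ a : Fin n → EuclideanSpace ℝ (Fin (p + e)), a = fun i =>
      if hi : i.val < p + 1 then s3join (b ⟨i.val, hi⟩) 0 else s3join 0 (s3w e s (i.val - (p + 1))) :=
    ⟨_, rfl⟩
  have ha1 : ∀ i : Fin n, ∀ hi : i.val < p + 1, a i = s3join (b ⟨i.val, hi⟩) 0 := by
    intro i hi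
    rw [ha]
    simp only [hi, dite_true]
  have ha2 : ∀ i : Fin n, ¬ i.val < p + 1 → a i = s3join 0 (s3w e s (i.val - (p + 1))) := by
    intro i hi
    rw [ha]
    simp only [hi, dite_false]
  have g11 : ∀ i j : Fin n, i.val < p + 1 → j.val < p + 1 →
      inner ℝ (a i) (a j) = (if i = j then (1 : ℝ) else 0) - κ := by
    intro i j hi hj
    rw [ha1 i hi, ha1 j hj, s3_inner, inner_zero_left, add_zero, hb]
    have : (⟨i.val, hi⟩ : Fin (p + 1)) = ⟨j.val, hj⟩ ↔ i = j := by
      rw [Fin.mk.injEq, Fin.ext_iff]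
    simp only [this]
  have g12 : ∀ i j : Fin n, i.val < p + 1 → ¬ j.val < p + 1 → inner ℝ (a i) (a j) = 0 := by
    intro i j hi hj
    rw [ha1 i hi, ha2 j hj, s3_inner, inner_zero_left, inner_zero_right, add_zero]
  have g21 : ∀ i j : Fin n, ¬ i.val < p + 1 → j.val < p + 1 → inner ℝ (a i) (a j) = 0 := by
    intro i j hi hj
    rw [real_inner_comm]
    exact g12 j i hj hi
  have g22 : ∀ i j : Fin n, ¬ i.val < p + 1 → ¬ j.val < p + 1 → inner ℝ (a i) (a j)
      = inner ℝ (s3w e s (i.val - (p + 1))) (s3w e s (j.val - (p + 1))) := by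
    intro i j hi hj
    rw [ha2 i hi, ha2 j hj, s3_inner, inner_zero_left, zero_add]
  have hkn : p + 1 ≤ n := by omega
  have v1 : ∀ (g : Equiv.Perm (Fin (p + 1))) (c : Fin n) (hc : c.val < p + 1),
      g.viaEmbedding (Fin.castLEEmb hkn) c = Fin.castLE hkn (g ⟨c.val, hc⟩) := by
    intro g c hc
    exact Equiv.Perm.viaEmbedding_apply g (Fin.castLEEmb hkn) ⟨c.val, hc⟩
  have v2 : ∀ (g : Equiv.Perm (Fin (p + 1))) (c : Fin n), ¬ c.val < p + 1 →
      g.viaEmbedding (Fin.castLEEmb hkn) c = c := by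
    intro g c hc
    apply Equiv.Perm.viaEmbedding_apply_of_notMem
    rintro ⟨x, rfl⟩
    exact hc x.2
  have v3 : ∀ (g : Equiv.Perm (Fin (p + 1))) (c : Fin n), c.val < p + 1 →
      (g.viaEmbedding (Fin.castLEEmb hkn) c).val < p + 1 := by
    intro g c hc
    rw [v1 g c hc]
    exact (g ⟨c.val, hc⟩).2
  refine ⟨a, Equiv.Perm.viaEmbeddingHom (Fin.castLEEmb hkn), ⟨p + 1, h1⟩, ?_, ?_,
    Equiv.Perm.viaEmbeddingHom_injective _, ?_, ?_⟩
  · intro i j hij
    by_contra hne
    by_cases hi : i.val < p + 1 <;> by_cases hj : j.val < p + 1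
    · have e1 := g11 i i hi hi
      have e2 := g11 i j hi hj
      rw [← hij, e1, if_pos rfl, if_neg hne] at e2
      linarith
    · have e1 := g11 i i hi hi
      have e2 := g12 i j hi hj
      rw [← hij, e1, if_pos rfl] at e2
      linarith
    · have e1 := g11 j j hj hj
      have e2 := g21 i j hi hj
      rw [hij, e1, if_pos rfl] at e2
      linarith
    · have e1 : a i = a j := hij
      rw [ha2 i hi, ha2 j hj] at e1
      have e3 : s3w e s (i.val - (p + 1)) = s3w e s (j.val - (p + 1)) := by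
        ext c
        have e4 := congrArg (fun x : EuclideanSpace ℝ (Fin (p + e)) => x (Fin.natAdd p c)) e1
        simpa [s3join] using e4
      have hi' := i.2
      have hj' := j.2
      have e5 := s3w_inj hs0 (by omega) (by omega) e3
      exact hne (Fin.ext (by omega))
  · intro i j l
    rw [s3_inner_sub_sub]
    by_cases hi : i.val < p + 1 <;> by_cases hj : j.val < p + 1 <;>
      by_cases hl : l.val < p + 1
    · rw [g11 j l hj hl, g11 j i hj hi, g11 i l hi hl, g11 i i hi hi, if_pos rfl]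
      by_cases h3 : j = i
      · subst h3
        rw [if_pos rfl]
        split_ifs <;> linarith
      · rw [if_neg h3]
        by_cases h4 : i = l
        · subst h4
          rw [if_neg h3, if_pos rfl]
          linarith
        · rw [if_neg h4]
          split_ifs <;> linarith
    · rw [g12 j l hj hl, g11 j i hj hi, g12 i l hi hl, g11 i i hi hi, if_pos rfl]
      split_ifs <;> linarith
    · rw [g21 j l hj hl, g21 j i hj hi, g11 i l hi hl, g11 i i hi hi, if_pos rfl]
      split_ifs <;> linarith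
    · rw [g22 j l hj hl, g21 j i hj hi, g12 i l hi hl, g11 i i hi hi, if_pos rfl]
      have := s3w_ge hs2 (j.val - (p + 1)) (l.val - (p + 1))
      linarith
    · rw [g11 j l hj hl, g12 j i hj hi, g21 i l hi hl, g22 i i hi hi, s3w_self hs2]
      split_ifs <;> linarith
    · rw [g12 j l hj hl, g12 j i hj hi, g22 i l hi hl, g22 i i hi hi, s3w_self hs2]
      have := s3w_le hs2 (i.val - (p + 1)) (l.val - (p + 1))
      linarith
    · rw [g21 j l hj hl, g22 j i hj hi, g21 i l hi hl, g22 i i hi hi, s3w_self hs2]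
      have := s3w_le hs2 (j.val - (p + 1)) (i.val - (p + 1))
      linarith
    · rw [g22 j l hj hl, g22 j i hj hi, g22 i l hi hl, g22 i i hi hi]
      exact s3w_angle e s _ _ _
  · intro g
    rw [Equiv.Perm.viaEmbeddingHom_apply]
    exact v2 g _ (by simp)
  · intro g i j
    rw [Equiv.Perm.viaEmbeddingHom_apply]
    by_cases hi : i.val < p + 1 <;> by_cases hj : j.val < p + 1
    · rw [g11 _ _ (v3 g i hi) (v3 g j hj), g11 i j hi hj]
      simp only [EmbeddingLike.apply_eq_iff_eq]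
    · rw [v2 g j hj, g12 _ _ (v3 g i hi) hj, g12 i j hi hj]
    · rw [v2 g i hi, g21 _ _ hi (v3 g j hj), g21 i j hi hj]
    · rw [v2 g i hi, v2 g j hj]

end Pool.Agent.Lib.H21Simplex
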