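import Pool.Agent.Lib.H21Simplex.F4
import Pool.Agent.Lib.H21Simplex.S1
import Pool.Agent.Lib.H21Simplex.S2
import Pool.Agent.Lib.H21Simplex.S3
import Pool.Agent.Lib.H21Simplex.K4
import Pool.Agent.Lib.H21Cube.I2

/-!
# The number of simultaneously optimal full topologies of a regular simplex
-/

namespace Pool.Agent.Lib.H21Simplex

open Pool.Agent.Lib.H21Steiner Pool.Agent.Lib.H21Cube

private theorem inner_sub_sub' {d : ℕ} (u v w : EuclideanSpace ℝ (Fin d)) :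
    inner ℝ (u - w) (v - w) = inner ℝ u v - inner ℝ u w - inner ℝ w v + inner ℝ w w := by
  rw [inner_sub_left, inner_sub_right, inner_sub_right]
  ring

theorem odd_le_gcd_mul_maxOptimal {d n m : ℕ} (hn : 3 ≤ n) (hd : n ≤ d + 1) (hodd : Odd m)
    (hm : m ∣ n.factorial) : (m : ℕ∞) ≤ ((Nat.gcd 3 n : ℕ) : ℕ∞) * maxOptimal d n := by
  obtain ⟨a, ha⟩ := exists_simplex (d := d) (n := n) (by omega) hd
  have hinj : Function.Injective a := by
    intro i j hij
    by_contra hne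
    have h1 := ha i i
    have h2 := ha i j
    rw [if_pos rfl] at h1
    rw [if_neg hne, ← hij, h1] at h2
    linarith
  have hob : ∀ i j l, 0 ≤ inner ℝ (a j - a i) (a l - a i) := by
    intro i j l
    rw [inner_sub_sub', ha, ha, ha, ha, if_pos rfl]
    by_cases h1 : j = i
    · subst h1
      rw [if_pos rfl]
      split_ifs <;> linarith
    · rw [if_neg h1]
      by_cases h2 : i = l
      · subst h2
        rw [if_neg h1, if_pos rfl]
        linarith
      · rw [if_neg h2]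
        split_ifs <;> linarith
  have hΦ : ∀ g : Equiv.Perm (Fin n), ∃ Φ : EuclideanSpace ℝ (Fin d) ≃ₗᵢ[ℝ]
      EuclideanSpace ℝ (Fin d), ∀ i, Φ (a i) = a (g i) := by
    intro g
    refine exists_isometry_of_gram a (fun i => a (g i)) fun i j => ?_
    rw [ha, ha]
    simp only [EmbeddingLike.apply_eq_iff_eq]
  obtain ⟨G, hG⟩ := exists_full_of_nonobtuse hn a hinj hob
  have hS : ∀ g : Equiv.Perm (Fin n), G.map (vperm (MonoidHom.id _ g)).toEmbedding ∈
      optimalGraphs a := by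
    intro g
    obtain ⟨Φ, hΦ⟩ := hΦ g
    obtain ⟨h3, K, h4, h5⟩ := hG
    exact ⟨isFullTopology_map _ h3, Φ '' K, isSteinerTree_image g Φ hΦ h4,
      isDrawing_image g Φ hΦ h5⟩
  have h3 : (m : ℕ∞) ≤ ((Nat.gcd 3 n : ℕ) : ℕ∞) * numOptimal a := by
    refine count3 hn hG.1 (MonoidHom.id _) (fun _ _ h => h) (optimalGraphs a) hS hodd ?_
    rw [Nat.card_perm, Nat.card_fin]
    exact hm
  refine h3.trans (mul_le_mul' le_rfl ?_)
  exact (le_iSup (fun a : {a : Fin n → EuclideanSpace ℝ (Fin d) // Function.Injective a} =>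
    numOptimal a.1) ⟨a, hinj⟩)

private theorem factorial_eq' (k : ℕ) :
    ∃ m : ℕ, Odd m ∧ k.factorial = 2 ^ (k - (Nat.digits 2 k).sum) * m := by
  obtain ⟨s, m, hm, h⟩ := Nat.exists_eq_two_pow_mul_odd (Nat.factorial_ne_zero k)
  have h1 : padicValNat 2 k.factorial = s := by
    rw [h]
    have : Fact (Nat.Prime 2) := ⟨Nat.prime_two⟩
    rw [padicValNat.mul (by positivity) (by rintro rfl; simp at hm), padicValNat.prime_pow,
      padicValNat.eq_zero_of_not_dvd (fun h2 => by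
        rw [← even_iff_two_dvd] at h2
        exact (Nat.not_even_iff_odd.2 hm) h2), add_zero]
  have h2 := sub_one_mul_padicValNat_factorial (p := 2) k
  refine ⟨m, hm, ?_⟩
  rw [← h2, h1]
  simpa using h

theorem odd_le_maxOptimal {d k n m : ℕ} (hn : 3 ≤ n) (hk2 : 2 ≤ k) (hkd : k ≤ d) (h1 : k < n)
    (h2 : n ≤ k + 2 ^ (d + 1 - k)) (hodd : Odd m) (hm : m ∣ k.factorial) :
    (m : ℕ∞) ≤ maxOptimal d n := by
  obtain ⟨a, ι, r, hinj, hob, hι, hr, ha⟩ := exists_family hk2 hkd h1 h2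
  have hΦ : ∀ g : Equiv.Perm (Fin k), ∃ Φ : EuclideanSpace ℝ (Fin d) ≃ₗᵢ[ℝ]
      EuclideanSpace ℝ (Fin d), ∀ i, Φ (a i) = a (ι g i) := fun g =>
    exists_isometry_of_gram a (fun i => a (ι g i)) fun i j => (ha g i j).symm
  obtain ⟨G, hG⟩ := exists_full_of_nonobtuse hn a hinj hob
  have hS : ∀ g : Equiv.Perm (Fin k), G.map (vperm (ι g)).toEmbedding ∈ optimalGraphs a := by
    intro g
    obtain ⟨Φ, hΦ⟩ := hΦ g
    obtain ⟨h3, K, h4, h5⟩ := hG
    exact ⟨isFullTopology_map _ h3, Φ '' K, isSteinerTree_image (ι g) Φ hΦ h4,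
      isDrawing_image (ι g) Φ hΦ h5⟩
  have h3 : (m : ℕ∞) ≤ numOptimal a := by
    refine count hG.1 ι hι r hr (optimalGraphs a) hS hodd ?_
    rw [Nat.card_perm, Nat.card_fin]
    exact hm
  exact h3.trans (le_iSup (fun a : {a : Fin n → EuclideanSpace ℝ (Fin d) // Function.Injective a} =>
    numOptimal a.1) ⟨a, hinj⟩)

/-- The exponent `n - (Nat.digits 2 n).sum` is the exponent of `2` in `n!`. -/
theorem factorial_le_maxOptimal {d n : ℕ} (hn : 3 ≤ n) (hd : n ≤ d + 1) :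
    ((n.factorial : ℕ) : ℕ∞) ≤
      ((Nat.gcd 3 n * 2 ^ (n - (Nat.digits 2 n).sum) : ℕ) : ℕ∞) * maxOptimal d n := by
  obtain ⟨m, hodd, hks⟩ := factorial_eq' n
  have h3 := odd_le_gcd_mul_maxOptimal hn hd hodd (m := m)
    ⟨2 ^ (n - (Nat.digits 2 n).sum), by rw [hks, mul_comm]⟩
  calc ((n.factorial : ℕ) : ℕ∞) = ((2 ^ (n - (Nat.digits 2 n).sum) : ℕ) : ℕ∞) * (m : ℕ∞) := by
        rw [hks]
        push_cast
        rfl
    _ ≤ ((2 ^ (n - (Nat.digits 2 n).sum) : ℕ) : ℕ∞) *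
          (((Nat.gcd 3 n : ℕ) : ℕ∞) * maxOptimal d n) := mul_le_mul' le_rfl h3
    _ = _ := by
        rw [← mul_assoc, ← Nat.cast_mul, mul_comm (2 ^ _) (Nat.gcd 3 n)]

/-- The two cases in one statement. -/
theorem factorial_le {d k n : ℕ} (hn : 3 ≤ n) (hk : 2 ≤ k) (hkn : k ≤ n)
    (h : k ≤ d ∧ n ≤ k + 2 ^ (d + 1 - k) ∨ k = d + 1 ∧ n = d + 1) :
    ((k.factorial : ℕ) : ℕ∞) ≤ (((if n = k then Nat.gcd 3 n else 1) *
      2 ^ (k - (Nat.digits 2 k).sum) : ℕ) : ℕ∞) * maxOptimal d n := by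
  by_cases hnk : n = k
  · subst hnk
    rw [if_pos rfl]
    exact factorial_le_maxOptimal hn (by omega)
  · rw [if_neg hnk, one_mul]
    have h4 : k ≤ d ∧ n ≤ k + 2 ^ (d + 1 - k) := by
      rcases h with h | h
      · exact h
      · omega
    obtain ⟨m, hodd, hks⟩ := factorial_eq' k
    have h3 := odd_le_maxOptimal hn hk h4.1 (by omega) h4.2 hodd (m := m)
      ⟨2 ^ (k - (Nat.digits 2 k).sum), by rw [hks, mul_comm]⟩
    calc ((k.factorial : ℕ) : ℕ∞) = ((2 ^ (k - (Nat.digits 2 k).sum) : ℕ) : ℕ∞) * (m : ℕ∞) := by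
          rw [hks]
          push_cast
          rfl
      _ ≤ _ := mul_le_mul' le_rfl h3

end Pool.Agent.Lib.H21Simplex
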